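import Pool.Agent.H24.CL.TargetsK

/-!
Row OX of clk_modules (MP_e21eee_nt): one step of the recursion for every `k`.
The proof follows helper3's proof of the case `k = 3`.
-/

set_option autoImplicit false

open Finset MeasureTheory
open Pool.Agent.H24.CL

namespace Pool.Agent.H45.CLK

theorem aux_a {A L : ℝ} (hA : 0 ≤ A) (hL : 1 ≤ L) : A * (L + 1) ≤ 2 * (A * L) := by nlinarith

theorem aux_b {a b q : ℝ} (hab : a ≤ b) (hb : 0 ≤ b) (hq : 1 ≤ q) : a ≤ b * q := by nlinarith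

theorem aux_c {A N M : ℝ} (hA : A ≤ N) (hN : 0 ≤ N) (hM : 0 < M) : A * M ≤ N * (2 * M) := by
  nlinarith

theorem aux_d {a q x N : ℝ} (ha : 0 ≤ a) (hq : q ≤ 2 * x) (h : N ≤ 2 * (a * q)) :
    N ≤ a * (4 * x) := by nlinarith

theorem aux_e {a b c : ℝ} (ha : 0 ≤ a) (hbc : b ≤ c) : a * -c ≤ -(a * b) := by nlinarith

theorem aux_f {M X Y : ℝ} (hM : 1 ≤ M) (hX : 0 ≤ X) (h : Y ≤ X) : Y ≤ M * X := by nlinarith

theorem pf_OX (hSE : TK_SE) (hRO : T_RO) : TK_OX := by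
  intro k hk
  obtain ⟨δ, D₀, hδ, hSE⟩ := hSE k hk
  obtain ⟨K, hKdef⟩ : ∃ K : ℝ, K = (KN k : ℝ) := ⟨_, rfl⟩
  have hK0 : 0 ≤ K := by rw [hKdef]; exact Nat.cast_nonneg _
  rw [← hKdef] at hSE
  have hk0 : (0 : ℝ) ≤ k := Nat.cast_nonneg _
  obtain ⟨D, hDD, hDK⟩ : ∃ D : ℝ, D₀ ≤ D ∧ K + 2 * k + 10 ≤ D :=
    ⟨max D₀ (K + 2 * k + 10), le_max_left _ _, le_max_right _ _⟩
  have hD10 : (10 : ℝ) ≤ D := by linarith
  obtain ⟨q₁, hq₁⟩ := hSE D hDD
  obtain ⟨q₂, hq₂⟩ := hRO k D hk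
  have hD0 : 0 < D := by linarith
  have h2D : (0 : ℝ) < 2 ^ (D + 2) := Real.rpow_pos_of_pos (by norm_num) _
  obtain ⟨X₀, hX₀⟩ : ∃ X : ℝ, X = (q₁ : ℝ) + q₂ + 2 ^ (D + 2) + 4 := ⟨_, rfl⟩
  have hq1c : (0 : ℝ) ≤ q₁ := Nat.cast_nonneg _
  have hq2c : (0 : ℝ) ≤ q₂ := Nat.cast_nonneg _
  have hX4 : 4 ≤ X₀ := by rw [hX₀]; linarith
  have hlogX : 0 < Real.log X₀ := Real.log_pos (by linarith)
  have hmin : 0 < min δ (1 / 8) := lt_min hδ (by norm_num)
  refine ⟨1 / D, min δ (1 / 8) / D, D * Real.log X₀, 2, by positivity, ?_, by positivity,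
    by norm_num, ?_⟩
  · rw [div_lt_one hD0]
    linarith
  intro M N hM hy
  obtain ⟨y, hydef⟩ : ∃ y : ℝ, y = Real.log (N / M) := ⟨_, rfl⟩
  rw [← hydef] at hy ⊢
  have hM0 : 0 < M := by linarith
  have hy0 : 0 < y := lt_of_lt_of_le (by positivity) hy
  have hN0 : 0 < (N : ℝ) := by
    rcases Nat.eq_zero_or_pos N with h | h
    · exfalso
      rw [h, Nat.cast_zero, zero_div, Real.log_zero] at hydef
      linarith
    · exact_mod_cast h
  have hNM : (N : ℝ) / M = Real.exp y := by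
    rw [hydef, Real.exp_log (by positivity)]
  -- the number x
  obtain ⟨x, hx⟩ : ∃ x : ℝ, x = Real.exp (y / D) := ⟨_, rfl⟩
  have hxX : X₀ ≤ x := by
    rw [hx, ← Real.exp_log (show 0 < X₀ by linarith)]
    apply Real.exp_le_exp.2
    rw [le_div_iff₀ hD0]
    linarith
  have hx4 : 4 ≤ x := hX4.trans hxX
  have hx0 : 0 < x := by linarith
  have hxD : x ^ D = Real.exp y := by
    rw [hx, ← Real.exp_mul, div_mul_cancel₀ _ hD0.ne']
  -- the prime q
  obtain ⟨q, hqp, hq1, hq2⟩ := Nat.exists_prime_lt_and_le_two_mul ⌊x⌋₊ (by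
    have := (Nat.floor_pos (a := x)).2 (by linarith)
    omega)
  have hxq : x < q := Nat.lt_of_floor_lt hq1
  have hq2x : (q : ℝ) ≤ 2 * x := by
    have h1 : (q : ℝ) ≤ 2 * (⌊x⌋₊ : ℝ) := by exact_mod_cast hq2
    have h2 := Nat.floor_le hx0.le
    linarith
  have hqpos : 0 < (q : ℝ) := hx0.trans hxq
  have hqq1 : q₁ ≤ q := by
    have : (q₁ : ℝ) ≤ q := by
      rw [hX₀] at hxX
      linarith
    exact_mod_cast this
  have hqq2 : q₂ ≤ q := by
    have : (q₂ : ℝ) ≤ q := by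
      rw [hX₀] at hxX
      linarith
    exact_mod_cast this
  have hqbig : (2 : ℝ) ^ (D + 2) ≤ q := by
    rw [hX₀] at hxX
    linarith
  have hq4 : (4 : ℝ) ≤ q := by linarith
  -- N against x
  have hNx : (N : ℝ) = M * x ^ D := by
    rw [hxD, ← hNM]
    field_simp
  have hx10 : x ^ (2 * (k + 2) : ℕ) ≤ x ^ D := by
    rw [← Real.rpow_natCast x (2 * (k + 2))]
    refine Real.rpow_le_rpow_of_exponent_le (by linarith) ?_
    push_cast
    linarith
  have hNx10 : x ^ (2 * (k + 2) : ℕ) ≤ (N : ℝ) := by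
    rw [hNx]
    exact aux_f hM (Real.rpow_nonneg hx0.le _) hx10
  -- the exponent
  obtain ⟨l, hl⟩ : ∃ l : ℕ, l = Nat.log q N := ⟨_, rfl⟩
  have hNnat : N ≠ 0 := by
    rintro rfl
    simp at hN0
  have hlo : q ^ l ≤ N := by
    rw [hl]
    exact Nat.pow_log_le_self q hNnat
  have hhi : N < q ^ (l + 1) := by
    rw [hl]
    exact Nat.lt_pow_succ_log_self hqp.one_lt N
  have hl5 : k + 2 ≤ l := by
    by_contra hcon
    have h1 : l + 1 ≤ k + 2 := by omega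
    have h2 : N < q ^ (k + 2) := lt_of_lt_of_le hhi (Nat.pow_le_pow_right hqp.pos h1)
    have h3 : (N : ℝ) < (q : ℝ) ^ (k + 2) := by exact_mod_cast h2
    have h4 : (q : ℝ) ^ (k + 2) ≤ (2 * x) ^ (k + 2) := pow_le_pow_left₀ hqpos.le hq2x (k + 2)
    have h5 : (2 * x) ^ (k + 2) ≤ x ^ (2 * (k + 2) : ℕ) := by
      have h6 : (2 : ℝ) ^ (k + 2) ≤ x ^ (k + 2) :=
        pow_le_pow_left₀ (by norm_num) (by linarith) (k + 2)
      calc (2 * x) ^ (k + 2) = 2 ^ (k + 2) * x ^ (k + 2) := mul_pow _ _ _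
        _ ≤ x ^ (k + 2) * x ^ (k + 2) := by
          apply mul_le_mul_of_nonneg_right h6
          positivity
        _ = x ^ (2 * (k + 2) : ℕ) := by rw [← pow_add]; congr 1; ring
    linarith
  -- m
  have hK2 : 0 ≤ (K + 2) * (D + 1) := by positivity
  obtain ⟨m₀, hm₀a, hm₀b⟩ : ∃ m₀ : ℕ, (K + 2) * (D + 1) ≤ m₀ ∧ (m₀ : ℝ) ≤ (K + 4) * D := by
    refine ⟨⌈(K + 2) * (D + 1)⌉₊, Nat.le_ceil _, ?_⟩
    have h1 := Nat.ceil_lt_add_one hK2
    have h2 : (K + 4) * D - ((K + 2) * (D + 1) + 1) = 2 * D - (K + 3) := by ring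
    linarith
  have hm₀4 : k + 1 ≤ m₀ := by
    have h1 : (K + 2) * (D + 1) = K * (D + 1) + 2 * (D + 1) := by ring
    have h2 : 0 ≤ K * (D + 1) := by positivity
    have : ((k + 1 : ℕ) : ℝ) ≤ m₀ := by
      push_cast
      linarith
    exact_mod_cast this
  obtain ⟨m, hm⟩ : ∃ m : ℕ, m = min m₀ (l - 1) := ⟨_, rfl⟩
  have hml : m + 1 ≤ l := by omega
  have hm4 : k + 1 ≤ m := by omega
  have hmm₀ : m ≤ m₀ := by omega
  have hm10 : (m : ℝ) ≤ (K + 4) * D := by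
    have : (m : ℝ) ≤ m₀ := by exact_mod_cast hmm₀
    linarith
  obtain ⟨L, hL⟩ : ∃ L : ℕ, L = N / q ^ m := ⟨_, rfl⟩
  have hqm : 0 < q ^ m := Nat.pow_pos hqp.pos
  have hqL : q ≤ L := by
    rw [hL, Nat.le_div_iff_mul_le hqm]
    calc q * q ^ m = q ^ (m + 1) := by ring
      _ ≤ q ^ l := Nat.pow_le_pow_right hqp.pos hml
      _ ≤ N := hlo
  have hL1 : 1 ≤ L := hqp.one_le.trans hqL
  have hN1 : q ^ m * L ≤ N := by
    rw [hL]
    exact Nat.mul_div_le N (q ^ m)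
  have hN2 : N < q ^ m * (L + 1) := by
    rw [hL]
    exact Nat.lt_mul_div_succ N hqm
  have hor : (K + 2) * (D + 1) ≤ m ∨ L ≤ q ^ 2 := by
    rcases le_total m₀ (l - 1) with h | h
    · left
      rw [hm, min_eq_left h]
      exact hm₀a
    · right
      have h1 : m = l - 1 := by rw [hm, min_eq_right h]
      rw [hL]
      apply Nat.div_le_of_le_mul
      have h2 : l + 1 = m + 2 := by omega
      rw [h2] at hhi
      calc N ≤ q ^ (m + 2) := hhi.le
        _ = q ^ m * q ^ 2 := by ring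
  -- real versions
  have hN1r : (q : ℝ) ^ m * L ≤ N := by exact_mod_cast hN1
  have hN2r : (N : ℝ) < (q : ℝ) ^ m * (L + 1) := by exact_mod_cast hN2
  have hqmr : 0 < (q : ℝ) ^ m := by positivity
  have hLr : (1 : ℝ) ≤ L := by exact_mod_cast hL1
  have hN3r : (N : ℝ) ≤ 2 * ((q : ℝ) ^ m * L) := by
    have : (q : ℝ) ^ m * (L + 1) ≤ 2 * ((q : ℝ) ^ m * L) := aux_a hqmr.le hLr
    linarith
  have hxDq : x ^ D ≤ (q : ℝ) ^ D := Real.rpow_le_rpow hx0.le hxq.le hD0.le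
  have hqD1 : (q : ℝ) ^ (D + 1) = (q : ℝ) ^ D * q := by
    rw [Real.rpow_add hqpos, Real.rpow_one]
  have hxDpos : 0 < x ^ D := Real.rpow_pos_of_pos hx0 _
  have hup : (N : ℝ) / M ≤ (q : ℝ) ^ (D + 1) := by
    rw [hNM, ← hxD, hqD1]
    exact aux_b hxDq (hxDpos.le.trans hxDq) (by linarith)
  have hup2 : ((q : ℝ) ^ m * L) / (2 * M) ≤ (q : ℝ) ^ (D + 1) := by
    refine le_trans ?_ hup
    rw [div_le_div_iff₀ (by positivity) hM0]
    exact aux_c hN1r hN0.le hM0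
  have hlow : (q : ℝ) ^ (D - 1) ≤ ((q : ℝ) ^ m * L) / (2 * M) := by
    have h1 : x ^ D / 4 ≤ ((q : ℝ) ^ m * L) / (2 * M) := by
      rw [div_le_div_iff₀ (by norm_num) (by positivity)]
      have h2 : x ^ D * (2 * M) = 2 * (N : ℝ) := by
        rw [hNx]
        ring
      rw [h2]
      linarith
    refine le_trans ?_ h1
    -- q^(D-1) ≤ x^D / 4
    have h3 : (q : ℝ) ^ D ≤ 2 ^ D * x ^ D := by
      rw [← Real.mul_rpow (by norm_num) hx0.le]
      exact Real.rpow_le_rpow hqpos.le hq2x hD0.le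
    have h4 : (q : ℝ) ^ (D - 1) * q = (q : ℝ) ^ D := by
      rw [← Real.rpow_add_one hqpos.ne']
      congr 1
      ring
    have h5 : (2 : ℝ) ^ (D + 2) = 2 ^ D * 4 := by
      rw [Real.rpow_add (by norm_num)]
      norm_num
    have h2Dp : (0 : ℝ) < 2 ^ D := Real.rpow_pos_of_pos (by norm_num) _
    have h6 : 0 ≤ (q : ℝ) ^ (D - 1) := Real.rpow_nonneg hqpos.le _
    have h7 : (q : ℝ) ^ (D - 1) * (2 ^ D * 4) ≤ 2 ^ D * x ^ D := by
      calc (q : ℝ) ^ (D - 1) * (2 ^ D * 4) ≤ (q : ℝ) ^ (D - 1) * q := by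
            apply mul_le_mul_of_nonneg_left _ h6
            rw [← h5]
            exact hqbig
        _ = (q : ℝ) ^ D := h4
        _ ≤ _ := h3
    have h8 : 2 ^ D * ((q : ℝ) ^ (D - 1) * 4) ≤ 2 ^ D * x ^ D := by
      calc 2 ^ D * ((q : ℝ) ^ (D - 1) * 4) = (q : ℝ) ^ (D - 1) * (2 ^ D * 4) := by ring
        _ ≤ _ := h7
    have h9 := le_of_mul_le_mul_left h8 h2Dp
    linarith
  have e1 := hq₂ q m L N M hqq2 hqL hM hN1 hN2 hup
  have e2 := hq₁ q m L M hqq1 hqp hL1 hM hm4 hm10 hor hlow hup2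
  -- the new length
  have hmpos : q ^ m = q ^ (m - 1) * q := by
    rw [← pow_succ]
    congr 1
    omega
  have hN'q : q ^ m * L = q ^ (m - 1) * L * q := by
    rw [hmpos]
    ring
  have hN'qr : (q : ℝ) ^ m * L = ((q ^ (m - 1) * L : ℕ) : ℝ) * q := by exact_mod_cast hN'q
  have hN'pos : 0 < q ^ (m - 1) * L := Nat.mul_pos (Nat.pow_pos hqp.pos) hL1
  have hN'posr : (0 : ℝ) < ((q ^ (m - 1) * L : ℕ) : ℝ) := by exact_mod_cast hN'pos
  refine ⟨q ^ (m - 1) * L, ?_, ?_, ?_, ?_⟩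
  · have h1 : q ^ (m - 1) * L < q ^ (m - 1) * L * q :=
      lt_mul_of_one_lt_right hN'pos hqp.one_lt
    rw [← hN'q] at h1
    exact lt_of_lt_of_le h1 hN1
  · -- M ≤ N'
    have h1 : (N : ℝ) ≤ 2 * (((q ^ (m - 1) * L : ℕ) : ℝ) * q) := by
      rw [← hN'qr]
      exact hN3r
    have h2 : (N : ℝ) ≤ ((q ^ (m - 1) * L : ℕ) : ℝ) * (4 * x) := aux_d hN'posr.le hq2x h1
    have h3 : M * (4 * x) ≤ N := by
      rw [hNx]
      apply mul_le_mul_of_nonneg_left _ hM0.le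
      have h4 : 4 * x ≤ x ^ (2 * (k + 2) : ℕ) := by
        have h5 : (4 : ℝ) ≤ x ^ (2 * k + 3) := by
          calc (4 : ℝ) ≤ x := hx4
            _ = x ^ 1 := (pow_one x).symm
            _ ≤ x ^ (2 * k + 3) := pow_le_pow_right₀ (by linarith) (by omega)
        calc 4 * x ≤ x ^ (2 * k + 3) * x := mul_le_mul_of_nonneg_right h5 hx0.le
          _ = x ^ (2 * (k + 2) : ℕ) := by
            rw [← pow_succ]
            congr 1
      exact h4.trans hx10
    have h6 : M * (4 * x) ≤ ((q ^ (m - 1) * L : ℕ) : ℝ) * (4 * x) := h3.trans h2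
    exact le_of_mul_le_mul_right h6 (by positivity)
  · -- the logarithm
    have h1 : ((q ^ (m - 1) * L : ℕ) : ℝ) * q ≤ N := by
      rw [← hN'qr]
      exact hN1r
    have h2 : ((q ^ (m - 1) * L : ℕ) : ℝ) ≤ N / q := by
      rw [le_div_iff₀ hqpos]
      exact h1
    have h3 : Real.log (((q ^ (m - 1) * L : ℕ) : ℝ) / M) ≤ Real.log ((N : ℝ) / M / q) := by
      apply Real.log_le_log (by positivity)
      calc ((q ^ (m - 1) * L : ℕ) : ℝ) / M ≤ N / q / M :=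
            div_le_div_of_nonneg_right h2 hM0.le
        _ = N / M / q := by ring
    have h4 : Real.log ((N : ℝ) / M / q) = y - Real.log q := by
      rw [Real.log_div (by positivity) hqpos.ne', ← hydef]
    have h5 : y / D ≤ Real.log q := by
      rw [← Real.log_exp (y / D), ← hx]
      exact Real.log_le_log hx0 hxq.le
    have h6 : (1 - 1 / D) * y = y - y / D := by ring
    rw [h6]
    linarith
  · -- the error
    have h1 : ∀ s : ℝ, min δ (1 / 8) ≤ s → (q : ℝ) ^ (-s) ≤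
        Real.exp (-(min δ (1 / 8) / D * y)) := by
      intro s hs
      have hs0 : 0 < s := hmin.trans_le hs
      calc (q : ℝ) ^ (-s) ≤ x ^ (-s) :=
            Real.rpow_le_rpow_of_nonpos hx0 hxq.le (by linarith)
        _ = Real.exp (y / D * (-s)) := by rw [hx, ← Real.exp_mul]
        _ ≤ _ := by
          apply Real.exp_le_exp.2
          have h2 : min δ (1 / 8) / D * y = y / D * min δ (1 / 8) := by ring
          rw [h2]
          exact aux_e (by positivity) hs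
    have h2 := h1 δ (min_le_left _ _)
    have h3 := h1 (1 / 8) (min_le_right _ _)
    linarith

end Pool.Agent.H45.CLK
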